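import Pool.Agent.Work.MP_c99f5e_an.Transfer

/-!
# Fixed points and laminations in Mather sets of the two-torus

If the minimal average action `β` of an autonomous Tonelli Lagrangian of the two-torus is
differentiable at `0`, then no Mather set contains both a fixed point of the Euler-Lagrange flow
and a nonempty compact invariant set without fixed points and without periodic orbits; in
particular no Mather set contains both a fixed point and a lamination without closed leaf.
-/

set_option autoImplicit false

open Pool.Agent.Work.MP_c99f5e_an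

namespace Pool.Agent.Results.MP_c99f5e_an.NoFixedPointWithLamination

theorem result (L : T2 → E → ℝ) (hL : IsTonelli L) (φ : Flow ℝ (T2 × E)) (hφ : IsELFlow L φ)
    (β : E → ℝ) (hβ : IsBeta L φ β) (hd : DifferentiableAt ℝ β 0) (c : E) :
    ¬ ((∃ z ∈ matherSet L φ c, ∀ t : ℝ, φ t z = z) ∧
      ∃ K ⊆ matherSet L φ c, IsCompact K ∧ K.Nonempty ∧ (∀ t : ℝ, ∀ z ∈ K, φ t z ∈ K) ∧
        ∀ z ∈ K, ∀ t : ℝ, 0 < t → φ t z ≠ z) := by
  rintro ⟨h1, K, hK1, hK2, hK3, hK4, hK5⟩
  exact main hL hφ hβ hd c ⟨h1, K, hK1, hK2, hK3, hK4, fun z hz t ht => hK5 z hz t ht⟩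

end Pool.Agent.Results.MP_c99f5e_an.NoFixedPointWithLamination
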